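import Pool.Agent.Work.MP_b5407d_lbm.Interface

/-! Block CF (helper42): facet integrals are continuous in the support numbers. -/

set_option autoImplicit false

open MeasureTheory Set Filter Topology

namespace Pool.LBM

namespace CF

lemma dt_add (a b c : R2) : dt a (b + c) = dt a b + dt a c := by
  simp only [dt, Prod.fst_add, Prod.snd_add]; ring

lemma dt_smul (a : R2) (t : ℝ) (b : R2) : dt a (t • b) = t * dt a b := by
  simp only [dt, Prod.smul_fst, Prod.smul_snd, smul_eq_mul]; ring

lemma cont_dt (a : R2) : Continuous (dt a) := by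
  unfold dt; fun_prop

lemma unit_cases {a b : R2} (ha : dt a a = 1) (hb : dt b b = 1) (h : dt a (rt b) = 0) :
    a = b ∨ a = -b := by
  simp only [dt, rt] at ha hb h
  have h1 : a.1 = (a.1 * b.1 + a.2 * b.2) * b.1 := by
    linear_combination (-a.1) * hb - b.2 * h
  have h2 : a.2 = (a.1 * b.1 + a.2 * b.2) * b.2 := by
    linear_combination (-a.2) * hb + b.1 * h
  set c := a.1 * b.1 + a.2 * b.2 with hc
  have h3 : c * c = 1 := by
    have : a.1 * a.1 + a.2 * a.2 = (c * b.1) * (c * b.1) + (c * b.2) * (c * b.2) := by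
      rw [← h1, ← h2]
    rw [ha] at this
    linear_combination (-1) * this - c * c * hb
  rcases mul_self_eq_one_iff.1 h3 with h4 | h4
  · left
    rw [h4] at h1 h2
    exact Prod.ext (by linarith) (by linarith)
  · right
    rw [h4] at h1 h2
    exact Prod.ext (by simp only [Prod.fst_neg]; linarith) (by simp only [Prod.snd_neg]; linarith)

lemma dt_rt_self (a : R2) : dt a (rt a) = 0 := by simp only [dt, rt]; ring

lemma dt_rt_rt (a : R2) : dt (rt a) (rt a) = dt a a := by simp only [dt, rt]; ring

lemma dt_rt_left (a : R2) : dt (rt a) a = 0 := by simp only [dt, rt]; ring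

lemma abs_dt_le {a x : R2} (ha : dt a a = 1) : |dt a x| ≤ 2 * ‖x‖ := by
  simp only [dt] at ha ⊢
  have h1 : |a.1| ≤ 1 := abs_le_one_iff_mul_self_le_one.2 (by nlinarith [mul_self_nonneg a.2])
  have h2 : |a.2| ≤ 1 := abs_le_one_iff_mul_self_le_one.2 (by nlinarith [mul_self_nonneg a.1])
  have h3 : |x.1| ≤ ‖x‖ := by simpa using norm_fst_le x
  have h4 : |x.2| ≤ ‖x‖ := by simpa using norm_snd_le x
  calc |a.1 * x.1 + a.2 * x.2| ≤ |a.1 * x.1| + |a.2 * x.2| := abs_add_le _ _
    _ = |a.1| * |x.1| + |a.2| * |x.2| := by rw [abs_mul, abs_mul]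
    _ ≤ 1 * ‖x‖ + 1 * ‖x‖ := add_le_add (mul_le_mul h1 h3 (abs_nonneg _) zero_le_one)
        (mul_le_mul h2 h4 (abs_nonneg _) zero_le_one)
    _ = 2 * ‖x‖ := by ring

end CF

open CF in
theorem blk_CF : Stmt_CF := by
  intro ι _ θ f h i hN hf hF
  obtain ⟨x0, hx0⟩ := hF
  let S : (ι → ℝ) → Set ℝ := fun h' => {s | h' i • θ i + s • rt (θ i) ∈ HP θ h'}
  have hcont : ∀ h' : ι → ℝ, Continuous (fun s : ℝ => h' i • θ i + s • rt (θ i)) := by
    intro h'; fun_prop
  have hSc : ∀ h', MeasurableSet (S h') := by
    intro h'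
    have : S h' = ⋂ j, {s : ℝ | dt (θ j) (h' i • θ i + s • rt (θ i)) ≤ h' j} := by
      ext s; simp [S, HP]
    rw [this]
    exact MeasurableSet.iInter (fun j =>
      (isClosed_le ((cont_dt (θ j)).comp (hcont h')) continuous_const).measurableSet)
  have e : (fun h' => FI θ f h' i) = fun h' => ∫ s, (S h').indicator
      (fun s => f (h' i • θ i + s • rt (θ i))) s := by
    funext h'
    unfold FI
    rw [← integral_indicator (hSc h')]
  rw [e]
  -- a common bound
  obtain ⟨R, hR⟩ := (hN.bdd (fun j => h j + 1)).subset_closedBall 0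
  obtain ⟨C, hC⟩ := (isCompact_closedBall (0 : R2) R).exists_bound_of_continuousOn hf.continuousOn
  have hev : ∀ᶠ h' : ι → ℝ in 𝓝 h, ∀ j, h' j ≤ h j + 1 := by
    rw [eventually_all]
    intro j
    have := (continuous_apply j).continuousAt (x := h)
    exact (this.eventually (gt_mem_nhds (lt_add_one (h j)))).mono (fun _ hh => le_of_lt hh)
  have hmem : ∀ h' : ι → ℝ, (∀ j, h' j ≤ h j + 1) → ∀ s ∈ S h',
      h' i • θ i + s • rt (θ i) ∈ Metric.closedBall (0 : R2) R := by
    intro h' hh s hs
    exact hR (fun j => (hs j).trans (hh j))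
  have hs2 : ∀ (h' : ι → ℝ) (s : ℝ), h' i • θ i + s • rt (θ i) ∈ Metric.closedBall (0 : R2) R →
      s ∈ Icc (-(2 * R)) (2 * R) := by
    intro h' s hs
    rw [mem_closedBall_zero_iff] at hs
    have h1 : dt (rt (θ i)) (h' i • θ i + s • rt (θ i)) = s := by
      rw [dt_add, dt_smul, dt_smul, dt_rt_left, dt_rt_rt, hN.unit]; ring
    have h2 := abs_dt_le (a := rt (θ i)) (x := h' i • θ i + s • rt (θ i))
      (by rw [dt_rt_rt, hN.unit])
    rw [h1] at h2
    have := abs_le.1 (h2.trans (mul_le_mul_of_nonneg_left hs zero_le_two))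
    exact ⟨this.1, this.2⟩
  refine continuousAt_of_dominated (bound := (Icc (-(2 * R)) (2 * R)).indicator (fun _ => |C|))
    ?_ ?_ ?_ ?_
  · refine Eventually.of_forall (fun h' => ?_)
    exact ((hf.comp (hcont h')).measurable.indicator (hSc h')).aestronglyMeasurable
  · filter_upwards [hev] with h' hh
    refine Eventually.of_forall (fun s => ?_)
    by_cases hs : s ∈ S h'
    · rw [indicator_of_mem hs, indicator_of_mem (hs2 h' s (hmem h' hh s hs))]
      exact (hC _ (hmem h' hh s hs)).trans (le_abs_self C)
    · rw [indicator_of_notMem hs, norm_zero]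
      exact indicator_nonneg (fun _ _ => abs_nonneg C) s
  · rw [integrable_indicator_iff measurableSet_Icc]
    exact integrableOn_const (by simp)
  · -- exceptional set
    let E : Set ℝ := ⋃ j, {s : ℝ | dt (θ j) (rt (θ i)) ≠ 0 ∧
      dt (θ j) (h i • θ i + s • rt (θ i)) = h j}
    have hE : E.Countable := by
      refine countable_iUnion (fun j => ?_)
      refine Set.Subsingleton.countable (fun s hs t ht => ?_)
      obtain ⟨hj, hs⟩ := hs
      obtain ⟨_, ht⟩ := ht
      rw [dt_add, dt_smul, dt_smul] at hs ht
      have : (s - t) * dt (θ j) (rt (θ i)) = 0 := by linarith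
      rcases mul_eq_zero.1 this with h5 | h5
      · linarith
      · exact absurd h5 hj
    filter_upwards [hE.ae_notMem volume] with s hsE
    have hne : ∀ j, j ≠ i → dt (θ j) (h i • θ i + s • rt (θ i)) ≠ h j := by
      intro j hj heq
      by_cases h0 : dt (θ j) (rt (θ i)) = 0
      · rcases unit_cases (hN.unit j) (hN.unit i) h0 with h1 | h1
        · exact hj (hN.inj h1)
        · have h2 := hx0 j
          have h3 := hx0 i
          rw [dt_add, dt_smul, dt_smul, h0, h1] at heq
          have h4 : dt (-θ i) (θ i) = -1 := by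
            have := hN.unit i
            simp only [dt, Prod.fst_neg, Prod.snd_neg] at this ⊢; linarith
          have h5 : dt (-θ i) x0 = - dt (θ i) x0 := by
            simp only [dt, Prod.fst_neg, Prod.snd_neg]; ring
          rw [h1, h5] at h2
          rw [h4] at heq
          linarith
      · exact hsE (mem_iUnion.2 ⟨j, h0, heq⟩)
    have hcj : ∀ j, Continuous (fun h' : ι → ℝ => dt (θ j) (h' i • θ i + s • rt (θ i))) := by
      intro j
      exact (cont_dt (θ j)).comp (by fun_prop)
    by_cases hs : s ∈ S h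
    · have hev2 : ∀ᶠ h' in 𝓝 h, s ∈ S h' := by
        have : ∀ᶠ h' in 𝓝 h, ∀ j, dt (θ j) (h' i • θ i + s • rt (θ i)) ≤ h' j := by
          rw [eventually_all]
          intro j
          by_cases hj : j = i
          · subst hj
            refine Eventually.of_forall (fun h' => ?_)
            rw [dt_add, dt_smul, dt_smul, hN.unit, dt_rt_self]
            linarith
          · have hlt : dt (θ j) (h i • θ i + s • rt (θ i)) < h j :=
              lt_of_le_of_ne (hs j) (hne j hj)
            have := ((hcj j).continuousAt (x := h)).eventually_lt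
              ((continuous_apply j).continuousAt (x := h)) hlt
            exact this.mono (fun _ hh => le_of_lt hh)
        exact this
      have h1 : ContinuousAt (fun h' : ι → ℝ => f (h' i • θ i + s • rt (θ i))) h :=
        (hf.comp (by fun_prop : Continuous (fun h' : ι → ℝ => h' i • θ i + s • rt (θ i)))).continuousAt
      refine h1.congr ?_
      filter_upwards [hev2] with h' hh
      rw [indicator_of_mem hh]
    · have : ∃ j, h j < dt (θ j) (h i • θ i + s • rt (θ i)) := by
        by_contra hcon
        push Not at hcon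
        exact hs hcon
      obtain ⟨j, hj⟩ := this
      have hev2 : ∀ᶠ h' in 𝓝 h, s ∉ S h' := by
        have := ((continuous_apply j).continuousAt (x := h)).eventually_lt
          ((hcj j).continuousAt (x := h)) hj
        filter_upwards [this] with h' hh hmem'
        exact absurd (hmem' j) (not_le.2 hh)
      refine (continuousAt_const (y := (0 : ℝ))).congr ?_
      filter_upwards [hev2] with h' hh
      rw [indicator_of_notMem hh]

end Pool.LBM
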