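import Pool.Agent.Work.MP_b5407d_lbm.Interface

/-! Block FV (helper42): the first variation of area integrals. -/

set_option autoImplicit false

open MeasureTheory Set Filter Topology

namespace Pool.LBM

theorem blk_FV (hSF : Stmt_SF) (hCF : Stmt_CF) : Stmt_FV := by
  classical
  intro ι _ θ f h g hN hf hFat
  have fat_open : ∀ᶠ h' in 𝓝 h, Fat θ h' := by
    obtain ⟨x, hx⟩ := hFat
    have : ∀ j, ∀ᶠ h' : ι → ℝ in 𝓝 h, dt (θ j) x < h' j := fun j =>
      ((continuous_apply j).continuousAt (x := h)).eventually (lt_mem_nhds (hx j))
    filter_upwards [eventually_all.2 this] with h' hh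
    exact ⟨x, hh⟩
  have key : ∀ S : Finset ι, HasDerivAt
      (fun s : ℝ => II θ f (fun j => h j + s * (if j ∈ S then g j else 0)))
      (∑ j ∈ S, g j * FI θ f h j) 0 := by
    intro S
    induction S using Finset.induction_on with
    | empty => simpa using hasDerivAt_const (0 : ℝ) (II θ f h)
    | insert i S hi ih =>
      rw [Finset.sum_insert hi]
      let H : ℝ → ι → ℝ := fun s j => h j + s * (if j ∈ S then g j else 0)
      let G : ℝ → ℝ := fun s => ∫ σ in (0 : ℝ)..(s * g i),
        FI θ f (Function.update (H s) i (h i + σ)) i
      have e1 : (fun s : ℝ => II θ f (fun j => h j + s * (if j ∈ insert i S then g j else 0))) =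
          fun s => G s + II θ f (H s) := by
        funext s
        have hHi : H s i = h i := by simp [H, hi]
        have h1 := hSF ι θ f (H s) i (s * g i) hN hf
        rw [hHi] at h1
        have e2 : (fun j => h j + s * (if j ∈ insert i S then g j else 0)) =
            Function.update (H s) i (h i + s * g i) := by
          funext j
          by_cases hj : j = i
          · subst hj; simp
          · simp [H, Finset.mem_insert, hj]
        rw [e2]
        simp only [G]
        linarith
      rw [e1]
      refine HasDerivAt.add ?_ ih
      -- the new term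
      have hG0 : G 0 = 0 := by simp [G]
      rw [hasDerivAt_iff_isLittleO_nhds_zero, Asymptotics.isLittleO_iff]
      intro ε hε
      set c := FI θ f h i with hc
      have hε' : 0 < ε / (|g i| + 1) := by positivity
      have hU : ∀ᶠ h' in 𝓝 h, Fat θ h' ∧ |FI θ f h' i - c| < ε / (|g i| + 1) := by
        refine fat_open.and ?_
        have h1 := (hCF ι θ f h i hN hf hFat).tendsto
        have h2 := (Metric.tendsto_nhds.1 h1) _ hε'
        filter_upwards [h2] with h' hh
        rwa [Real.dist_eq] at hh
      have hmap : Continuous (fun p : ℝ × ℝ => Function.update (H p.1) i (h i + p.2)) := by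
        refine Continuous.update ?_ i (by fun_prop)
        refine continuous_pi (fun j => ?_)
        show Continuous (fun p : ℝ × ℝ => h j + p.1 * (if j ∈ S then g j else 0))
        fun_prop
      have hmap0 : Function.update (H 0) i (h i + 0) = h := by
        funext j
        by_cases hj : j = i
        · subst hj; simp
        · simp [Function.update_of_ne hj, H]
      have hW : ∀ᶠ p : ℝ × ℝ in 𝓝 (0, 0),
          Fat θ (Function.update (H p.1) i (h i + p.2)) ∧
          |FI θ f (Function.update (H p.1) i (h i + p.2)) i - c| < ε / (|g i| + 1) := by
        have h1 := (hmap.continuousAt (x := ((0 : ℝ), (0 : ℝ)))).tendsto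
        simp only [hmap0] at h1
        exact h1.eventually hU
      obtain ⟨δ, hδ, hball⟩ := Metric.eventually_nhds_iff.1 hW
      have hδ2 : ∀ᶠ s : ℝ in 𝓝 0, |s| < δ ∧ |s * g i| < δ := by
        refine Filter.Eventually.and ?_ ?_
        · exact ((continuous_abs (G := ℝ)).tendsto' 0 0 (by simp)).eventually (gt_mem_nhds hδ)
        · have hc2 : Continuous (fun s : ℝ => |s * g i|) := by fun_prop
          exact (hc2.tendsto' 0 0 (by simp)).eventually (gt_mem_nhds hδ)
      filter_upwards [hδ2] with s hs
      rw [zero_add, hG0, sub_zero]
      have hin : ∀ σ ∈ uIcc 0 (s * g i), Fat θ (Function.update (H s) i (h i + σ)) ∧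
          |FI θ f (Function.update (H s) i (h i + σ)) i - c| < ε / (|g i| + 1) := by
        intro σ hσ
        have h1 : |σ| ≤ |s * g i| := by
          have := abs_sub_left_of_mem_uIcc hσ
          simpa using this
        refine hball (y := (s, σ)) ?_
        rw [Prod.dist_eq, Real.dist_eq, Real.dist_eq]
        simp only [sub_zero]
        exact max_lt hs.1 (h1.trans_lt hs.2)
      have hco : ContinuousOn (fun σ => FI θ f (Function.update (H s) i (h i + σ)) i)
          (uIcc 0 (s * g i)) := by
        intro σ hσ
        have h1 := hCF ι θ f _ i hN hf (hin σ hσ).1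
        have h2 : Continuous (fun σ : ℝ => Function.update (H s) i (h i + σ)) :=
          Continuous.update continuous_const i (by fun_prop)
        exact (ContinuousAt.comp (x := σ) h1 h2.continuousAt).continuousWithinAt
      have hint : IntervalIntegrable (fun σ => FI θ f (Function.update (H s) i (h i + σ)) i)
          volume 0 (s * g i) := hco.intervalIntegrable
      have hGs : G s - s • (g i * c) = ∫ σ in (0 : ℝ)..(s * g i),
          (FI θ f (Function.update (H s) i (h i + σ)) i - c) := by
        rw [intervalIntegral.integral_sub hint intervalIntegrable_const,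
          intervalIntegral.integral_const]
        simp only [G, smul_eq_mul, sub_zero]
        ring
      rw [hGs]
      have hb := intervalIntegral.norm_integral_le_of_norm_le_const
        (a := (0 : ℝ)) (b := s * g i) (C := ε / (|g i| + 1))
        (f := fun σ => FI θ f (Function.update (H s) i (h i + σ)) i - c)
        (fun σ hσ => by
          rw [Real.norm_eq_abs]
          exact (hin σ (uIoc_subset_uIcc hσ)).2.le)
      refine hb.trans ?_
      rw [sub_zero, abs_mul, Real.norm_eq_abs]
      have h3 : |g i| / (|g i| + 1) ≤ 1 := by
        rw [div_le_one (by positivity)]; linarith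
      calc ε / (|g i| + 1) * (|s| * |g i|) = ε * |s| * (|g i| / (|g i| + 1)) := by ring
        _ ≤ ε * |s| * 1 := mul_le_mul_of_nonneg_left h3 (by positivity)
        _ = ε * |s| := mul_one _
  have := key Finset.univ
  simpa using this

end Pool.LBM
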